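import Mathlib
import Pool.Agent.SRW.Final

/-!
MP_55bc5d_pr: for every `d ≥ 2`, with `q = 2 d - 1`, all the limit points of `c_{n+1} / c_n` lie in
`[2 q μ² / (q² + μ²), (q² + μ²) / (2 q)]` (for `d = 2`: within 0.83 percent of `μ`; `d = 3`: 0.22 percent;
`d = 4`: 0.06 percent).
-/

set_option autoImplicit false

namespace Pool.Agent.Results.MP_55bc5d_pr.RatioWindow

theorem result : ∀ d : ℕ, 2 ≤ d →
    ∀ c : ℕ → ℝ,
      (∀ n : ℕ, c n = (Nat.card {w : Fin (n + 1) → (Fin d → ℤ) //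
          w 0 = 0 ∧ Function.Injective w ∧
          ∀ i : Fin n, ∑ j : Fin d, |w i.succ j - w i.castSucc j| = 1} : ℝ)) →
      ∃ μ : ℝ, 1 ≤ μ ∧
        Filter.Tendsto (fun n : ℕ => c n ^ ((1 : ℝ) / (n : ℝ))) Filter.atTop (nhds μ) ∧
        ∀ ε : ℝ, 0 < ε → ∀ᶠ n : ℕ in Filter.atTop,
          2 * (2 * (d : ℝ) - 1) * μ ^ 2 / ((2 * (d : ℝ) - 1) ^ 2 + μ ^ 2) - ε ≤ c (n + 1) / c n ∧
          c (n + 1) / c n ≤ ((2 * (d : ℝ) - 1) ^ 2 + μ ^ 2) / (2 * (2 * (d : ℝ) - 1)) + ε :=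
  SRW.final

end Pool.Agent.Results.MP_55bc5d_pr.RatioWindow
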